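import Pool.Agent.helper85.FC.Defs

/-!
# Five coefficients, module M0: changing the local weights
-/

namespace Pool.Agent.helper85.FC

open Finset Real ArithmeticFunction Pool.Agent.helper39.MT

section
variable {ι : Type*} [Fintype ι] [DecidableEq ι]

/-- `∑_{S ∋ p} f(S) w^S ≤ w_p ∑_S f(S) w^S` if adding `p` does not increase `f`. -/
theorem M0_mem_le {w : ι → ℝ} (hw : ∀ p, 0 ≤ w p) {f : Finset ι → ℝ} (hf : ∀ S, 0 ≤ f S)
    (p : ι) (hanti : ∀ S, p ∉ S → f (insert p S) ≤ f S) :
    SS w (fun S => if p ∈ S then f S else 0) ≤ w p * SS w f := by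
  unfold SS
  have hprod : ∀ S : Finset ι, 0 ≤ ∏ q ∈ S, w q := fun S => Finset.prod_nonneg fun q _ => hw q
  have h1 : ∑ S : Finset ι, (if p ∈ S then f S else 0) * ∏ q ∈ S, w q
      = ∑ S ∈ univ.filter (fun S : Finset ι => p ∈ S), f S * ∏ q ∈ S, w q := by
    rw [Finset.sum_filter]
    refine Finset.sum_congr rfl fun S _ => ?_
    split_ifs <;> simp
  rw [h1]
  have h2 : ∀ S ∈ univ.filter (fun S : Finset ι => p ∈ S), f S * ∏ q ∈ S, w q
      ≤ (fun S' : Finset ι => w p * (f S' * ∏ q ∈ S', w q)) (S.erase p) := by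
    intro S hS
    have hp : p ∈ S := (Finset.mem_filter.mp hS).2
    have h3 : insert p (S.erase p) = S := Finset.insert_erase hp
    have h4 : ∏ q ∈ S, w q = w p * ∏ q ∈ S.erase p, w q := (Finset.mul_prod_erase S w hp).symm
    have h5 := hanti (S.erase p) (Finset.notMem_erase p S)
    rw [h3] at h5
    rw [h4]
    calc f S * (w p * ∏ q ∈ S.erase p, w q) = w p * (f S * ∏ q ∈ S.erase p, w q) := by ring
      _ ≤ w p * (f (S.erase p) * ∏ q ∈ S.erase p, w q) :=
        mul_le_mul_of_nonneg_left (mul_le_mul_of_nonneg_right h5 (hprod _)) (hw p)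
  refine (Finset.sum_le_sum h2).trans ?_
  rw [← Finset.sum_image (f := fun S' : Finset ι => w p * (f S' * ∏ q ∈ S', w q))
    (g := fun S : Finset ι => S.erase p), Finset.mul_sum]
  · exact Finset.sum_le_sum_of_subset_of_nonneg (Finset.subset_univ _)
      fun S _ _ => mul_nonneg (hw p) (mul_nonneg (hf S) (hprod S))
  · intro S hS T hT hST
    simp only [Finset.coe_filter, Finset.mem_univ, true_and, Set.mem_ofPred_eq] at hS hT
    simp only at hST
    rw [← Finset.insert_erase hS, ← Finset.insert_erase hT, hST]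

theorem M0_subset_le {w : ι → ℝ} (hw : ∀ p, 0 ≤ w p) {f : Finset ι → ℝ}
    (hf : ∀ S, 0 ≤ f S) (hanti : ∀ S p, p ∉ S → f (insert p S) ≤ f S) (T : Finset ι) :
    SS w (fun S => if T ⊆ S then f S else 0) ≤ (∏ q ∈ T, w q) * SS w f := by
  induction T using Finset.induction_on with
  | empty => simp
  | insert p T hp ih =>
    rw [Finset.prod_insert hp, mul_assoc]
    have h1 := M0_mem_le hw (f := fun S => if T ⊆ S then f S else 0)
      (fun S => by split_ifs <;> simp [hf]) p (fun S hS => by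
        have h2 : T ⊆ insert p S ↔ T ⊆ S := by
          constructor
          · intro h x hx
            rcases Finset.mem_insert.mp (h hx) with h3 | h3
            · exact absurd (h3 ▸ hx) hp
            · exact h3
          · exact fun h => h.trans (Finset.subset_insert p S)
        simp only [h2]
        split_ifs
        · exact hanti S p hS
        · exact le_refl _)
    have h3 : (fun S : Finset ι => if insert p T ⊆ S then f S else 0)
        = fun S : Finset ι => if p ∈ S then (if T ⊆ S then f S else 0) else 0 := by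
      funext S
      simp only [Finset.insert_subset_iff]
      by_cases ha : p ∈ S <;> by_cases hb : T ⊆ S <;> simp [ha, hb]
    rw [h3]
    exact h1.trans (mul_le_mul_of_nonneg_left ih (hw p))

/-- adding a multiple of the square to the weights -/
theorem M0_add {q : ι → ℝ} (hq : ∀ p, 0 ≤ q p) {f : Finset ι → ℝ} (hf : ∀ S, 0 ≤ f S)
    (hanti : ∀ S p, p ∉ S → f (insert p S) ≤ f S) {c : ℝ} (hc : 0 ≤ c) :
    SS (fun p => q p * (1 + c * q p)) f ≤ Real.exp (c * ∑ p, q p ^ 2) * SS q f := by
  have hprod : ∀ S : Finset ι, 0 ≤ ∏ p ∈ S, q p := fun S => Finset.prod_nonneg fun p _ => hq p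
  have hprodc : ∀ S : Finset ι, 0 ≤ ∏ p ∈ S, (c * q p) := fun S =>
    Finset.prod_nonneg fun p _ => mul_nonneg hc (hq p)
  have hSS : 0 ≤ SS q f := Finset.sum_nonneg fun S _ => mul_nonneg (hf S) (hprod S)
  have h1 : SS (fun p => q p * (1 + c * q p)) f
      = ∑ T : Finset ι, (∏ p ∈ T, (c * q p)) * SS q (fun S => if T ⊆ S then f S else 0) := by
    unfold SS
    simp only [Finset.mul_sum]
    rw [Finset.sum_comm]
    refine Finset.sum_congr rfl fun S _ => ?_
    rw [Finset.prod_mul_distrib, Finset.prod_one_add]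
    have h2 : ∑ T ∈ S.powerset, ∏ p ∈ T, (c * q p)
        = ∑ T : Finset ι, if T ⊆ S then ∏ p ∈ T, (c * q p) else 0 := by
      rw [← Finset.sum_filter]
      refine Finset.sum_congr ?_ fun _ _ => rfl
      ext T
      simp
    rw [h2, Finset.mul_sum, Finset.mul_sum]
    refine Finset.sum_congr rfl fun T _ => ?_
    split_ifs <;> ring
  rw [h1]
  have h2 : ∀ T ∈ (univ : Finset (Finset ι)),
      (∏ p ∈ T, (c * q p)) * SS q (fun S => if T ⊆ S then f S else 0)
        ≤ (∏ p ∈ T, c * q p ^ 2) * SS q f := by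
    intro T _
    have h3 := mul_le_mul_of_nonneg_left (M0_subset_le hq hf hanti T) (hprodc T)
    refine h3.trans (le_of_eq ?_)
    rw [← mul_assoc, ← Finset.prod_mul_distrib]
    congr 1
    exact Finset.prod_congr rfl fun p _ => by ring
  refine (Finset.sum_le_sum h2).trans ?_
  rw [← Finset.sum_mul]
  refine mul_le_mul_of_nonneg_right ?_ hSS
  have h4 : ∑ T : Finset ι, ∏ p ∈ T, c * q p ^ 2 = ∏ p : ι, (1 + c * q p ^ 2) := by
    rw [Finset.prod_one_add, Finset.powerset_univ]
  rw [h4, Finset.mul_sum, Real.exp_sum]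
  refine Finset.prod_le_prod (fun p _ => by positivity) fun p _ => ?_
  have := Real.add_one_le_exp (c * q p ^ 2)
  linarith

/-- M0: changing the local weights. -/
theorem SS_one_add_six {q : ι → ℝ} (hq : ∀ p, 0 ≤ q p) (hq4 : ∀ p, q p ≤ 1 / 4)
    {f : Finset ι → ℝ} (hf : ∀ S, 0 ≤ f S) (hanti : ∀ S p, p ∉ S → f (insert p S) ≤ f S) :
    SS (fun p => q p * (1 + 6 * q p)) f ≤ Real.exp (60 * ∑ p, q p ^ 2) * SS q f := by
  refine (M0_add hq hf hanti (by norm_num : (0 : ℝ) ≤ 6)).trans ?_
  have hSS : 0 ≤ SS q f := Finset.sum_nonneg fun S _ => mul_nonneg (hf S)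
    (Finset.prod_nonneg fun p _ => hq p)
  refine mul_le_mul_of_nonneg_right ?_ hSS
  apply Real.exp_le_exp.2
  have : 0 ≤ ∑ p, q p ^ 2 := Finset.sum_nonneg fun p _ => sq_nonneg _
  linarith

end

end Pool.Agent.helper85.FC
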