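import Pool.Agent.helper85.FC.Defs

/-!
# Five coefficients, module M3: size of the coefficients
-/

namespace Pool.Agent.helper85.FC

open Finset Real ArithmeticFunction Pool.Agent.helper39.MT

section
variable {ι : Type*} [Fintype ι] [DecidableEq ι] {k : ℕ}

omit [DecidableEq ι] in
theorem M3_mem_supp (σ : ι → Option (Fin k)) (p : ι) : p ∈ supp σ ↔ σ p ≠ none := by
  simp [supp]

omit [DecidableEq ι] in
theorem M3_mem_cls (σ : ι → Option (Fin k)) (i : Fin k) (p : ι) :
    p ∈ cls σ i ↔ σ p = some i := by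
  simp [cls]

/-- M3: size of the coefficients. -/
theorem hz_support (m m' : Fin k) {q l : ι → ℝ} {Y Y' : ℝ} (hl : ∀ p, 0 ≤ l p)
    {y : (ι → Option (Fin k)) → ℝ} (hy : ∀ σ, y σ ≠ 0 → ∑ p ∈ supp σ, l p ≤ Y')
    (σ : ι → Option (Fin k)) (hσ : hz m m' q l Y y σ ≠ 0) :
    (∀ p, σ p ≠ some m) ∧ ∑ p ∈ supp σ, l p ≤ Y + Y' := by
  classical
  unfold hz at hσ
  split_ifs at hσ with h
  · obtain ⟨h1, h2⟩ := h
    refine ⟨h1, ?_⟩
    have h3 : yy2 m m' q y (rem m' σ) ≠ 0 := fun h4 => hσ (by rw [h4, zero_div])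
    obtain ⟨σ', -, h4⟩ := Finset.exists_ne_zero_of_sum_ne_zero h3
    have h5 : y σ' ≠ 0 := left_ne_zero_of_mul h4
    have h6 : ∏ p, Zl2 m m' (q p) (σ' p) (rem m' σ p) ≠ 0 := right_ne_zero_of_mul h4
    have h7 : supp (rem m' σ) ⊆ supp σ' := by
      intro p hp
      rw [M3_mem_supp] at hp ⊢
      have h8 := (Finset.prod_ne_zero_iff.1 h6) p (Finset.mem_univ p)
      rcases hr : rem m' σ p with _ | i
      · exact absurd hr hp
      · rw [hr] at h8
        unfold Zl2 at h8
        simp only at h8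
        split_ifs at h8 with h9
        · rw [h9]; simp
        · exact absurd rfl h8
    have h8 : supp σ ⊆ supp (rem m' σ) ∪ cls σ m' := by
      intro p hp
      rw [M3_mem_supp] at hp
      rw [Finset.mem_union, M3_mem_supp, M3_mem_cls]
      by_cases h9 : σ p = some m'
      · right; exact h9
      · left
        unfold rem
        rw [if_neg h9]
        exact hp
    calc ∑ p ∈ supp σ, l p ≤ ∑ p ∈ supp (rem m' σ) ∪ cls σ m', l p :=
          Finset.sum_le_sum_of_subset_of_nonneg h8 fun p _ _ => hl p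
      _ ≤ ∑ p ∈ supp (rem m' σ), l p + ∑ p ∈ cls σ m', l p := by
          rw [← Finset.sum_union_inter]
          have : 0 ≤ ∑ p ∈ supp (rem m' σ) ∩ cls σ m', l p := Finset.sum_nonneg fun p _ => hl p
          linarith
      _ ≤ ∑ p ∈ supp σ', l p + ∑ p ∈ cls σ m', l p := by
          have : ∑ p ∈ supp (rem m' σ), l p ≤ ∑ p ∈ supp σ', l p :=
            Finset.sum_le_sum_of_subset_of_nonneg h7 fun p _ _ => hl p
          linarith
      _ ≤ Y + Y' := by
          have := hy σ' h5
          linarith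
  · exact absurd rfl hσ

/-- M3': the coefficients with two labels integrated out. -/
theorem yy2_le (m m' : Fin k) (hmm : m ≠ m') {q l : ι → ℝ} (hq : ∀ p, 0 ≤ q p) {g : Finset ι → ℝ}
    (hg : ∀ S, 0 ≤ g S) (Y' : ℝ) (t : ι → Option (Fin k)) (ht : ∀ p, t p ≠ some m ∧ t p ≠ some m') :
    0 ≤ yy2 m m' q (yy l Y' g) t ∧
    yy2 m m' q (yy l Y' g) t ≤ (∏ i ∈ (univ.erase m).erase m', g (cls t i)) * SS q g ^ 2 := by
  classical
  have hZ : ∀ s s' p, 0 ≤ Zl2 m m' (q p) s s' := by
    intro s s' p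
    unfold Zl2
    split <;> split_ifs <;> first | exact zero_le_one | exact hq p | exact le_refl _
  have hZp : ∀ σ : ι → Option (Fin k), 0 ≤ ∏ p, Zl2 m m' (q p) (σ p) (t p) := fun σ =>
    Finset.prod_nonneg fun p _ => hZ _ _ _
  have hgp : ∀ σ : ι → Option (Fin k), 0 ≤ ∏ i, g (cls σ i) := fun σ =>
    Finset.prod_nonneg fun i _ => hg _
  have hyy0 : ∀ σ : ι → Option (Fin k), 0 ≤ yy l Y' g σ := by
    intro σ
    unfold yy
    refine mul_nonneg (hgp σ) ?_
    split_ifs <;> norm_num
  have hyy1 : ∀ σ : ι → Option (Fin k), yy l Y' g σ ≤ ∏ i, g (cls σ i) := by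
    intro σ
    unfold yy
    refine mul_le_of_le_one_right (hgp σ) ?_
    split_ifs <;> norm_num
  refine ⟨Finset.sum_nonneg fun σ _ => mul_nonneg (hyy0 σ) (hZp σ), ?_⟩
  set R : ℝ := ∏ i ∈ (univ.erase m).erase m', g (cls t i) with hR
  have hR0 : 0 ≤ R := Finset.prod_nonneg fun i _ => hg _
  -- the contributing labellings
  set A : Finset (ι → Option (Fin k)) :=
    univ.filter fun σ => ∏ p, Zl2 m m' (q p) (σ p) (t p) ≠ 0 with hA
  have hAmem : ∀ σ ∈ A, ∀ p, (∀ i, t p = some i → σ p = some i) ∧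
      (t p = none → σ p = none ∨ σ p = some m ∨ σ p = some m') := by
    intro σ hσ p
    have h6 := (Finset.prod_ne_zero_iff.1 (Finset.mem_filter.1 hσ).2) p (Finset.mem_univ p)
    constructor
    · intro i hi
      rw [hi] at h6
      unfold Zl2 at h6
      simp only at h6
      split_ifs at h6 with h9
      · exact h9
      · exact absurd rfl h6
    · intro hn
      rw [hn] at h6
      unfold Zl2 at h6
      simp only at h6
      split_ifs at h6 with h9 h10
      · left; exact h9
      · right; exact h10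
      · exact absurd rfl h6
  have hcls : ∀ σ ∈ A, ∀ i, i ≠ m → i ≠ m' → cls σ i = cls t i := by
    intro σ hσ i hi hi'
    ext p
    rw [M3_mem_cls, M3_mem_cls]
    obtain ⟨h1, h2⟩ := hAmem σ hσ p
    constructor
    · intro h3
      rcases htp : t p with _ | j
      · rcases h2 htp with h4 | h4 | h4
        · rw [h3] at h4; cases h4
        · rw [h3] at h4; exact absurd (Option.some.inj h4) hi
        · rw [h3] at h4; exact absurd (Option.some.inj h4) hi'
      · have := h1 j htp
        rw [h3] at this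
        rw [Option.some.inj this]
    · exact h1 i
  -- the product of the local factors
  have hprodZ : ∀ σ ∈ A, ∏ p, Zl2 m m' (q p) (σ p) (t p)
      = (∏ p ∈ cls σ m, q p) * ∏ p ∈ cls σ m', q p := by
    intro σ hσ
    unfold cls
    rw [Finset.prod_filter, Finset.prod_filter, ← Finset.prod_mul_distrib]
    refine Finset.prod_congr rfl fun p _ => ?_
    obtain ⟨h1, h2⟩ := hAmem σ hσ p
    rcases htp : t p with _ | j
    · unfold Zl2
      simp only
      rcases h2 htp with h4 | h4 | h4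
      · simp [h4]
      · have : (some m : Option (Fin k)) ≠ some m' := fun h => hmm (Option.some.inj h)
        simp [h4, hmm]
      · simp [h4, hmm.symm]
    · have h4 := h1 j htp
      have hj := ht p
      rw [htp] at hj
      unfold Zl2
      simp only
      rw [h4, if_pos rfl, if_neg hj.1, if_neg hj.2, mul_one]
  -- splitting off the two labels
  have hsplit : ∀ σ ∈ A, ∏ i, g (cls σ i) = R * (g (cls σ m) * g (cls σ m')) := by
    intro σ hσ
    rw [← Finset.mul_prod_erase univ _ (Finset.mem_univ m),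
      ← Finset.mul_prod_erase (univ.erase m) _
        (Finset.mem_erase.2 ⟨hmm.symm, Finset.mem_univ m'⟩)]
    have : ∏ i ∈ (univ.erase m).erase m', g (cls σ i) = R := by
      rw [hR]
      refine Finset.prod_congr rfl fun i hi => ?_
      rw [Finset.mem_erase, Finset.mem_erase] at hi
      rw [hcls σ hσ i hi.2.1 hi.1]
    rw [this]
    ring
  have hterm : ∀ σ ∈ A, yy l Y' g σ * ∏ p, Zl2 m m' (q p) (σ p) (t p)
      ≤ (fun P : Finset ι × Finset ι => R * ((g P.1 * ∏ p ∈ P.1, q p) * (g P.2 * ∏ p ∈ P.2, q p)))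
        (cls σ m, cls σ m') := by
    intro σ hσ
    calc yy l Y' g σ * ∏ p, Zl2 m m' (q p) (σ p) (t p)
        ≤ (∏ i, g (cls σ i)) * ∏ p, Zl2 m m' (q p) (σ p) (t p) :=
          mul_le_mul_of_nonneg_right (hyy1 σ) (hZp σ)
      _ = _ := by
          rw [hprodZ σ hσ, hsplit σ hσ]
          ring
  have hsum : yy2 m m' q (yy l Y' g) t
      = ∑ σ ∈ A, yy l Y' g σ * ∏ p, Zl2 m m' (q p) (σ p) (t p) := by
    unfold yy2
    symm
    refine Finset.sum_subset (Finset.subset_univ _) fun σ _ hσ => ?_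
    have : ∏ p, Zl2 m m' (q p) (σ p) (t p) = 0 := by
      by_contra hne
      exact hσ (Finset.mem_filter.2 ⟨Finset.mem_univ _, hne⟩)
    rw [this, mul_zero]
  rw [hsum]
  refine (Finset.sum_le_sum hterm).trans ?_
  have hinj : Set.InjOn (fun σ : ι → Option (Fin k) => (cls σ m, cls σ m')) A := by
    intro σ hσ τ hτ h
    simp only [Prod.mk.injEq] at h
    obtain ⟨hm, hm'⟩ := h
    funext p
    obtain ⟨h1, h2⟩ := hAmem σ hσ p
    obtain ⟨h3, h4⟩ := hAmem τ hτ p
    have e1 : σ p = some m ↔ τ p = some m := by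
      rw [← M3_mem_cls, hm, M3_mem_cls]
    have e2 : σ p = some m' ↔ τ p = some m' := by
      rw [← M3_mem_cls, hm', M3_mem_cls]
    rcases htp : t p with _ | j
    · rcases h2 htp with h5 | h5 | h5
      · rcases h4 htp with h6 | h6 | h6
        · rw [h5, h6]
        · rw [e1.2 h6, h6]
        · rw [e2.2 h6, h6]
      · rw [h5, e1.1 h5]
      · rw [h5, e2.1 h5]
    · rw [h1 j htp, h3 j htp]
  rw [← Finset.sum_image (f := fun P : Finset ι × Finset ι =>
    R * ((g P.1 * ∏ p ∈ P.1, q p) * (g P.2 * ∏ p ∈ P.2, q p)))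
    (g := fun σ : ι → Option (Fin k) => (cls σ m, cls σ m')) hinj]
  have hq' : ∀ S : Finset ι, 0 ≤ g S * ∏ p ∈ S, q p := fun S =>
    mul_nonneg (hg S) (Finset.prod_nonneg fun p _ => hq p)
  refine (Finset.sum_le_sum_of_subset_of_nonneg (Finset.subset_univ _)
    fun P _ _ => mul_nonneg hR0 (mul_nonneg (hq' _) (hq' _))).trans (le_of_eq ?_)
  rw [← Finset.mul_sum, Fintype.sum_prod_type]
  change R * ∑ S : Finset ι, ∑ S' : Finset ι, (g S * ∏ p ∈ S, q p) * (g S' * ∏ p ∈ S', q p) = _
  rw [← Finset.sum_mul_sum, sq]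
  rfl

end

end Pool.Agent.helper85.FC
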