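import Pool.Agent.helper85.FC.Defs
import Pool.Agent.helper93.FC.M0
import Pool.Agent.helper93.FC.M3

/-!
# Five coefficients, module M4: the quadratic form of the majorant
-/

namespace Pool.Agent.helper85.FC

open Finset Real ArithmeticFunction Pool.Agent.helper39.MT

section
variable {ι : Type*} [Fintype ι] [DecidableEq ι] {k : ℕ}

/-- The sum over labellings is at most the sum over tuples of sets; a function for every label. -/
theorem M4_labels {b : ι → ℝ} (hb : ∀ p, 0 ≤ b p) {f : Fin k → Finset ι → ℝ}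
    (hf : ∀ i S, 0 ≤ f i S) :
    ∑ σ : ι → Option (Fin k), (∏ p, (if σ p = none then 1 else b p)) * ∏ i, f i (cls σ i)
      ≤ ∏ i, SS b (f i) := by
  have h1 : ∏ i, SS b (f i) = ∑ g : Fin k → Finset ι, ∏ i, (f i (g i) * ∏ p ∈ g i, b p) := by
    have h2 : ∏ i, SS b (f i) = ∏ i : Fin k, ∑ S : Finset ι, f i S * ∏ p ∈ S, b p := rfl
    rw [h2, Finset.prod_univ_sum, Fintype.piFinset_univ]
  have h3 : ∀ σ : ι → Option (Fin k), (∏ p, (if σ p = none then 1 else b p))
      = ∏ i : Fin k, ∏ p ∈ cls σ i, b p := by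
    intro σ
    have h4 : ∀ p, (if σ p = none then 1 else b p)
        = ∏ i : Fin k, (if σ p = some i then b p else 1) := by
      intro p
      rcases h : σ p with _ | i
      · simp
      · rw [if_neg (by simp), Finset.prod_eq_single i]
        · simp
        · intro j _ hj
          rw [if_neg]
          intro h5
          exact hj (Option.some.inj h5).symm
        · intro h5
          exact absurd (Finset.mem_univ _) h5
    rw [Finset.prod_congr rfl fun p _ => h4 p, Finset.prod_comm]
    refine Finset.prod_congr rfl fun i _ => ?_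
    unfold cls
    rw [Finset.prod_filter]
  have h5 : ∀ σ : ι → Option (Fin k),
      (∏ p, (if σ p = none then 1 else b p)) * ∏ i, f i (cls σ i)
        = (fun g : Fin k → Finset ι => ∏ i, (f i (g i) * ∏ p ∈ g i, b p)) (fun i => cls σ i) := by
    intro σ
    simp only
    rw [h3, Finset.prod_mul_distrib]
    ring
  rw [h1, Finset.sum_congr rfl fun σ _ => h5 σ,
    ← Finset.sum_image (f := fun g : Fin k → Finset ι => ∏ i, (f i (g i) * ∏ p ∈ g i, b p))
      (g := fun σ : ι → Option (Fin k) => fun i => cls σ i)]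
  · refine Finset.sum_le_sum_of_subset_of_nonneg (Finset.subset_univ _) fun g _ _ => ?_
    exact Finset.prod_nonneg fun i _ => mul_nonneg (hf _ _) (Finset.prod_nonneg fun p _ => hb p)
  · intro σ _ τ _ h
    simp only at h
    funext p
    rcases hσ : σ p with _ | i
    · rcases hτ : τ p with _ | j
      · rfl
      · exfalso
        have h6 : p ∈ cls τ j := by simp [cls, hτ]
        rw [← congrFun h j] at h6
        simp [cls, hσ] at h6
    · have h6 : p ∈ cls σ i := by simp [cls, hσ]
      rw [congrFun h i] at h6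
      simp only [cls, Finset.mem_filter, Finset.mem_univ, true_and] at h6
      rw [h6]

omit [DecidableEq ι] in
/-- the product of the local weights over the support -/
theorem M4_prod (b : ι → ℝ) (σ : ι → Option (Fin k)) :
    ∏ p, (if σ p = none then 1 else b p) = ∏ p ∈ supp σ, b p := by
  unfold supp
  rw [Finset.prod_filter]
  refine Finset.prod_congr rfl fun p _ => ?_
  by_cases h : σ p = none <;> simp [h]

/-- the Selberg sum restricted to the complement of a support -/
theorem M4_ZZ {q l : ι → ℝ} (hq : ∀ p, 0 ≤ q p) (hl : ∀ p, 0 ≤ l p) (Y : ℝ)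
    (t : ι → Option (Fin k)) :
    SS q (fun S => if ∑ p ∈ S, l p ≤ Y then 1 else 0)
      ≤ (∏ p ∈ supp t, (1 + q p)) * ZZ q l Y t := by
  classical
  have hprod : ∀ S : Finset ι, 0 ≤ ∏ p ∈ S, q p := fun S => Finset.prod_nonneg fun p _ => hq p
  rw [Finset.prod_one_add]
  unfold SS ZZ
  rw [Finset.sum_mul_sum, ← Finset.sum_product']
  have h1 : ∑ S : Finset ι, (if ∑ p ∈ S, l p ≤ Y then (1 : ℝ) else 0) * ∏ p ∈ S, q p
      = ∑ S ∈ univ.filter (fun S : Finset ι => ∑ p ∈ S, l p ≤ Y),
        (fun P : Finset ι × Finset ι => (∏ p ∈ P.1, q p) * ∏ p ∈ P.2, q p)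
          (S ∩ supp t, S \ supp t) := by
    rw [Finset.sum_filter]
    refine Finset.sum_congr rfl fun S _ => ?_
    split_ifs
    · rw [one_mul]
      simp only
      rw [← Finset.prod_union (Finset.disjoint_left.2 fun p hp hp' =>
        (Finset.mem_sdiff.1 hp').2 (Finset.mem_inter.1 hp).2)]
      congr 1
      ext p
      simp only [Finset.mem_union, Finset.mem_inter, Finset.mem_sdiff]
      tauto
    · rw [zero_mul]
  rw [h1, ← Finset.sum_image (f := fun P : Finset ι × Finset ι =>
    (∏ p ∈ P.1, q p) * ∏ p ∈ P.2, q p) (g := fun S : Finset ι => (S ∩ supp t, S \ supp t))]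
  · refine Finset.sum_le_sum_of_subset_of_nonneg ?_ fun P _ _ => mul_nonneg (hprod _) (hprod _)
    intro P hP
    obtain ⟨S, hS, rfl⟩ := Finset.mem_image.1 hP
    rw [Finset.mem_product, Finset.mem_powerset, Finset.mem_filter]
    refine ⟨Finset.inter_subset_right, Finset.mem_univ _, Finset.sdiff_disjoint, ?_⟩
    exact (Finset.sum_le_sum_of_subset_of_nonneg Finset.sdiff_subset fun p _ _ => hl p).trans
      (Finset.mem_filter.1 hS).2
  · intro S _ T _ h
    simp only [Prod.mk.injEq] at h
    obtain ⟨h2, h3⟩ := h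
    ext p
    have h4 := Finset.ext_iff.1 h2 p
    have h5 := Finset.ext_iff.1 h3 p
    simp only [Finset.mem_inter, Finset.mem_sdiff] at h4 h5
    tauto

/-- M4: the quadratic form of the majorant. -/
theorem hz_form (hk : 2 ≤ k) (m m' : Fin k) (hmm : m ≠ m') {q l : ι → ℝ} (hq : ∀ p, 0 ≤ q p)
    (hq4 : ∀ p, q p ≤ 1 / 4) (hl : ∀ p, 0 ≤ l p) {g : Finset ι → ℝ} (hg : ∀ S, 0 ≤ g S)
    {Y : ℝ} (hY : 0 ≤ Y) (Y' : ℝ) :
    ∑ σ : ι → Option (Fin k), (∏ p, (if σ p = none then 1 else q p * (1 + 4 * q p)))
        * hz m m' q l Y (yy l Y' g) σ ^ 2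
      ≤ Real.exp (60 * ∑ p, q p ^ 2) * SS q g ^ 4
          * SS (fun p => q p * (1 + 6 * q p)) (fun S => g S ^ 2) ^ (k - 2)
          / SS q (fun S => if ∑ p ∈ S, l p ≤ Y then 1 else 0) := by
  classical
  set b : ι → ℝ := fun p => q p * (1 + 4 * q p) with hb
  set b2 : ι → ℝ := fun p => q p * (1 + 6 * q p) with hb2
  have hb0 : ∀ p, 0 ≤ b p := fun p => mul_nonneg (hq p) (by linarith [hq p])
  have hb20 : ∀ p, 0 ≤ b2 p := fun p => mul_nonneg (hq p) (by linarith [hq p])
  set D : ℝ := SS q (fun S => if ∑ p ∈ S, l p ≤ Y then 1 else 0) with hD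
  have hqp : ∀ S : Finset ι, 0 ≤ ∏ p ∈ S, q p := fun S => Finset.prod_nonneg fun p _ => hq p
  have hbp : ∀ S : Finset ι, 0 ≤ ∏ p ∈ S, b p := fun S => Finset.prod_nonneg fun p _ => hb0 p
  have hD1 : 1 ≤ D := by
    have h1 : (fun S : Finset ι => (if ∑ p ∈ S, l p ≤ Y then (1 : ℝ) else 0) * ∏ p ∈ S, q p) ∅
        ≤ D := by
      refine Finset.single_le_sum (f := fun S : Finset ι =>
        (if ∑ p ∈ S, l p ≤ Y then (1 : ℝ) else 0) * ∏ p ∈ S, q p) (fun S _ => ?_)
        (Finset.mem_univ ∅)
      refine mul_nonneg ?_ (hqp S)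
      split_ifs <;> norm_num
    simpa [hY] using h1
  have hD0 : 0 < D := by linarith
  have hZZ0 : ∀ t : ι → Option (Fin k), 0 < ZZ q l Y t := by
    intro t
    by_contra hc
    push Not at hc
    have h1 := M4_ZZ hq hl Y t
    have h2 : 0 ≤ ∏ p ∈ supp t, (1 + q p) := Finset.prod_nonneg fun p _ => by linarith [hq p]
    have h3 : (∏ p ∈ supp t, (1 + q p)) * ZZ q l Y t ≤ 0 := mul_nonpos_of_nonneg_of_nonpos h2 hc
    rw [← hD] at h1
    linarith
  -- the function of the pair `(t, S)`
  set av : (ι → Option (Fin k)) → Prop := fun t => ∀ p, t p ≠ some m ∧ t p ≠ some m' with hav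
  set G : (ι → Option (Fin k)) × Finset ι → ℝ := fun P =>
    if av P.1 ∧ Disjoint P.2 (supp P.1) ∧ ∑ p ∈ P.2, l p ≤ Y then
      (∏ p ∈ supp P.1, b p) * (∏ p ∈ P.2, b p) *
        (yy2 m m' q (yy l Y' g) P.1 / ZZ q l Y P.1) ^ 2 else 0 with hG
  have hG0 : ∀ P, 0 ≤ G P := by
    intro P
    rw [hG]
    simp only
    split_ifs
    · exact mul_nonneg (mul_nonneg (hbp _) (hbp _)) (sq_nonneg _)
    · exact le_refl _
  have hsup : ∀ σ : ι → Option (Fin k), supp σ = supp (rem m' σ) ∪ cls σ m' ∧
      Disjoint (cls σ m') (supp (rem m' σ)) := by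
    intro σ
    constructor
    · ext p
      rw [Finset.mem_union, M3_mem_supp, M3_mem_supp, M3_mem_cls]
      unfold rem
      by_cases h : σ p = some m'
      · simp [h]
      · simp [h]
    · rw [Finset.disjoint_left]
      intro p hp hp'
      rw [M3_mem_cls] at hp
      rw [M3_mem_supp] at hp'
      unfold rem at hp'
      rw [if_pos hp] at hp'
      exact hp' rfl
  have hterm : ∀ σ : ι → Option (Fin k),
      (∏ p, (if σ p = none then 1 else b p)) * hz m m' q l Y (yy l Y' g) σ ^ 2
        = G (rem m' σ, cls σ m') ∨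
      (∏ p, (if σ p = none then 1 else b p)) * hz m m' q l Y (yy l Y' g) σ ^ 2 = 0 := by
    intro σ
    unfold hz
    split_ifs with h
    · left
      obtain ⟨h1, h2⟩ := h
      have h3 : av (rem m' σ) := by
        intro p
        unfold rem
        by_cases h4 : σ p = some m'
        · rw [if_pos h4]
          exact ⟨by simp, by simp⟩
        · rw [if_neg h4]
          exact ⟨h1 p, h4⟩
      have h5 := hsup σ
      rw [hG]
      simp only
      rw [if_pos ⟨h3, h5.2, h2⟩, M4_prod, h5.1, Finset.prod_union h5.2.symm]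
    · right
      simp
  have hterm' : ∀ σ ∈ (univ : Finset (ι → Option (Fin k))),
      (∏ p, (if σ p = none then 1 else b p)) * hz m m' q l Y (yy l Y' g) σ ^ 2
        ≤ G (rem m' σ, cls σ m') := by
    intro σ _
    rcases hterm σ with h | h
    · rw [h]
    · rw [h]; exact hG0 _
  have hinj : Set.InjOn (fun σ : ι → Option (Fin k) => (rem m' σ, cls σ m'))
      (univ : Finset (ι → Option (Fin k))) := by
    intro σ _ τ _ h
    simp only [Prod.mk.injEq] at h
    obtain ⟨h1, h2⟩ := h
    funext p
    have e1 : σ p = some m' ↔ τ p = some m' := by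
      rw [← M3_mem_cls, h2, M3_mem_cls]
    by_cases h3 : σ p = some m'
    · rw [h3, e1.1 h3]
    · have h4 : τ p ≠ some m' := fun h5 => h3 (e1.2 h5)
      have h5 := congrFun h1 p
      unfold rem at h5
      rw [if_neg h3, if_neg h4] at h5
      exact h5
  refine (Finset.sum_le_sum hterm').trans ?_
  rw [← Finset.sum_image (f := G) hinj]
  refine (Finset.sum_le_sum_of_subset_of_nonneg (Finset.subset_univ _)
    fun P _ _ => hG0 P).trans ?_
  rw [Fintype.sum_prod_type]
  -- the inner sum
  set E := Real.exp (60 * ∑ p, q p ^ 2) with hE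
  have hE0 : 0 < E := Real.exp_pos _
  have hinner : ∀ t : ι → Option (Fin k), ∑ S : Finset ι, G (t, S)
      ≤ E * SS q g ^ 4 / D * ((∏ p, (if t p = none then 1 else b2 p)) *
        ∏ i, (if i = m ∨ i = m' then (fun S : Finset ι => if S = ∅ then (1 : ℝ) else 0)
          else fun S => g S ^ 2) (cls t i)) := by
    intro t
    have hR0 : 0 ≤ E * SS q g ^ 4 / D * ((∏ p, (if t p = none then 1 else b2 p)) *
        ∏ i, (if i = m ∨ i = m' then (fun S : Finset ι => if S = ∅ then (1 : ℝ) else 0)
          else fun S => g S ^ 2) (cls t i)) := by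
      refine mul_nonneg (by positivity) (mul_nonneg ?_ ?_)
      · rw [M4_prod]
        exact Finset.prod_nonneg fun p _ => hb20 p
      · refine Finset.prod_nonneg fun i _ => ?_
        split_ifs
        · simp only; split_ifs <;> norm_num
        · exact sq_nonneg _
    by_cases hat : av t
    swap
    · have : ∀ S : Finset ι, G (t, S) = 0 := by
        intro S
        rw [hG]
        simp only
        rw [if_neg]
        exact fun h => hat h.1
      rw [Finset.sum_congr rfl fun S _ => this S, Finset.sum_const_zero]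
      exact hR0
    obtain ⟨hy0, hy1⟩ := yy2_le (l := l) m m' hmm hq hg Y' t hat
    set z := yy2 m m' q (yy l Y' g) t with hzd
    set Z := ZZ q l Y t with hZ
    have hZ0 : 0 < Z := hZZ0 t
    set B := ∏ p ∈ supp t, b p with hB
    have hB0 : 0 ≤ B := hbp _
    -- the sum over `S`
    have h1 : ∑ S : Finset ι, G (t, S) = B * (z / Z) ^ 2 *
        SS b (fun S => if Disjoint S (supp t) ∧ ∑ p ∈ S, l p ≤ Y then 1 else 0) := by
      unfold SS
      rw [Finset.mul_sum]
      refine Finset.sum_congr rfl fun S _ => ?_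
      rw [hG]
      simp only
      by_cases h2 : Disjoint S (supp t) ∧ ∑ p ∈ S, l p ≤ Y
      · rw [if_pos ⟨hat, h2⟩, if_pos h2]
        ring
      · rw [if_neg (fun h => h2 h.2), if_neg h2]
        ring
    have h2 : SS b (fun S => if Disjoint S (supp t) ∧ ∑ p ∈ S, l p ≤ Y then 1 else 0)
        ≤ E * Z := by
      have h3 := M0_add hq (f := fun S : Finset ι =>
        if Disjoint S (supp t) ∧ ∑ p ∈ S, l p ≤ Y then (1 : ℝ) else 0)
        (fun S => by split_ifs <;> norm_num)
        (fun S p hp => by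
          by_cases h4 : Disjoint (insert p S) (supp t) ∧ ∑ x ∈ insert p S, l x ≤ Y
          · rw [if_pos h4, if_pos]
            refine ⟨h4.1.mono_left (Finset.subset_insert p S), ?_⟩
            rw [Finset.sum_insert hp] at h4
            linarith [hl p, h4.2]
          · rw [if_neg h4]
            split_ifs <;> norm_num) (by norm_num : (0 : ℝ) ≤ 4)
      refine h3.trans ?_
      have h5 : SS q (fun S : Finset ι =>
          if Disjoint S (supp t) ∧ ∑ p ∈ S, l p ≤ Y then (1 : ℝ) else 0) = Z := by
        rw [hZ]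
        unfold SS ZZ
        rw [Finset.sum_filter]
        refine Finset.sum_congr rfl fun S _ => ?_
        by_cases h6 : Disjoint S (supp t) ∧ ∑ p ∈ S, l p ≤ Y
        · simp only [if_pos h6, one_mul]
        · simp only [if_neg h6, zero_mul]
      rw [h5]
      refine mul_le_mul_of_nonneg_right ?_ hZ0.le
      rw [hE]
      apply Real.exp_le_exp.2
      have : 0 ≤ ∑ p, q p ^ 2 := Finset.sum_nonneg fun p _ => sq_nonneg _
      linarith
    have h3 : ∑ S : Finset ι, G (t, S) ≤ E * (B * z ^ 2 / Z) := by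
      rw [h1]
      calc B * (z / Z) ^ 2 * _ ≤ B * (z / Z) ^ 2 * (E * Z) :=
            mul_le_mul_of_nonneg_left h2 (mul_nonneg hB0 (sq_nonneg _))
        _ = E * (B * z ^ 2 / Z) := by field_simp
    -- the lower bound for `Z`
    have h4 : B / Z ≤ (∏ p ∈ supp t, b2 p) / D := by
      have h5 := M4_ZZ hq hl Y t
      rw [← hD, ← hZ] at h5
      rw [div_le_div_iff₀ hZ0 hD0]
      calc B * D ≤ B * ((∏ p ∈ supp t, (1 + q p)) * Z) := mul_le_mul_of_nonneg_left h5 hB0
        _ = (∏ p ∈ supp t, (b p * (1 + q p))) * Z := by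
            rw [Finset.prod_mul_distrib]; ring
        _ ≤ (∏ p ∈ supp t, b2 p) * Z := by
            refine mul_le_mul_of_nonneg_right ?_ hZ0.le
            refine Finset.prod_le_prod (fun p _ => mul_nonneg (hb0 p) (by linarith [hq p]))
              fun p _ => ?_
            have e1 := hq p
            have e2 := hq4 p
            simp only [hb, hb2]
            nlinarith [mul_nonneg e1 e1]
    have h5 : z ^ 2 ≤ (∏ i ∈ (univ.erase m).erase m', g (cls t i) ^ 2) * SS q g ^ 4 := by
      calc z ^ 2 ≤ ((∏ i ∈ (univ.erase m).erase m', g (cls t i)) * SS q g ^ 2) ^ 2 :=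
            pow_le_pow_left₀ hy0 hy1 2
        _ = _ := by rw [mul_pow, ← Finset.prod_pow]; ring
    have h6 : ∏ i, (if i = m ∨ i = m' then (fun S : Finset ι => if S = ∅ then (1 : ℝ) else 0)
          else fun S => g S ^ 2) (cls t i) = ∏ i ∈ (univ.erase m).erase m', g (cls t i) ^ 2 := by
      have e1 : cls t m = ∅ := by
        ext p; rw [M3_mem_cls]; simp [(hat p).1]
      have e2 : cls t m' = ∅ := by
        ext p; rw [M3_mem_cls]; simp [(hat p).2]
      rw [← Finset.mul_prod_erase univ _ (Finset.mem_univ m),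
        ← Finset.mul_prod_erase (univ.erase m) _
          (Finset.mem_erase.2 ⟨hmm.symm, Finset.mem_univ m'⟩), e1, e2]
      simp only [true_or, or_true, if_true, one_mul]
      refine Finset.prod_congr rfl fun i hi => ?_
      rw [Finset.mem_erase, Finset.mem_erase] at hi
      rw [if_neg]
      rintro (h7 | h7)
      · exact hi.2.1 h7
      · exact hi.1 h7
    rw [h6, M4_prod]
    calc ∑ S : Finset ι, G (t, S) ≤ E * (B * z ^ 2 / Z) := h3
      _ = E * ((B / Z) * z ^ 2) := by ring
      _ ≤ E * (((∏ p ∈ supp t, b2 p) / D) *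
          ((∏ i ∈ (univ.erase m).erase m', g (cls t i) ^ 2) * SS q g ^ 4)) := by
          refine mul_le_mul_of_nonneg_left ?_ hE0.le
          refine mul_le_mul h4 h5 (sq_nonneg _) ?_
          exact div_nonneg (Finset.prod_nonneg fun p _ => hb20 p) hD0.le
      _ = _ := by ring
  refine (Finset.sum_le_sum fun t _ => hinner t).trans ?_
  rw [← Finset.mul_sum]
  have hlab := M4_labels (k := k) hb20 (f := fun i => if i = m ∨ i = m' then
    (fun S : Finset ι => if S = ∅ then (1 : ℝ) else 0) else fun S => g S ^ 2)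
    (fun i S => by
      split_ifs
      · simp only; split_ifs <;> norm_num
      · exact sq_nonneg _)
  have hlab2 : ∏ i : Fin k, SS b2 (if i = m ∨ i = m' then
    (fun S : Finset ι => if S = ∅ then (1 : ℝ) else 0) else fun S => g S ^ 2)
      = SS b2 (fun S => g S ^ 2) ^ (k - 2) := by
    have e1 : SS b2 (fun S : Finset ι => if S = ∅ then (1 : ℝ) else 0) = 1 := by
      unfold SS
      rw [Finset.sum_eq_single ∅]
      · simp
      · intro S _ hS
        simp [hS]
      · intro h
        exact absurd (Finset.mem_univ _) h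
    rw [← Finset.mul_prod_erase univ _ (Finset.mem_univ m),
      ← Finset.mul_prod_erase (univ.erase m) _
        (Finset.mem_erase.2 ⟨hmm.symm, Finset.mem_univ m'⟩)]
    simp only [true_or, or_true, if_true, e1, one_mul]
    rw [Finset.prod_congr rfl (g := fun _ => SS b2 (fun S => g S ^ 2)), Finset.prod_const]
    · congr 1
      rw [Finset.card_erase_of_mem (Finset.mem_erase.2 ⟨hmm.symm, Finset.mem_univ m'⟩),
        Finset.card_erase_of_mem (Finset.mem_univ m), Finset.card_univ, Fintype.card_fin]
      omega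
    · intro i hi
      rw [Finset.mem_erase, Finset.mem_erase] at hi
      rw [if_neg]
      rintro (h7 | h7)
      · exact hi.2.1 h7
      · exact hi.1 h7
  rw [hlab2] at hlab
  have hc0 : 0 ≤ E * SS q g ^ 4 / D := by positivity
  refine (mul_le_mul_of_nonneg_left hlab hc0).trans (le_of_eq ?_)
  ring

end

end Pool.Agent.helper85.FC
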